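import Pool.Agent.Results.MP_c4a55f_al.LocCompactProduct

set_option linter.all false

namespace Pool.Agent.Results.MP_eb0bda_gt.BirkhoffPowers

open Filter Topology Set Usp
open scoped Pointwise

universe u v

/-- the group of inner automorphisms -/
abbrev Inn (G : Type u) [Group G] : Type u := (MulAut.conj (G := G)).range

/-- the basic neighbourhoods of the identity of the Birkhoff topology, intersected with the group of
inner automorphisms -/
def birk (G : Type u) [Group G] (C U : Set G) : Set (Inn G) :=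
  {f | ∀ g ∈ C, (f : MulAut G) g * g⁻¹ ∈ U ∧ ((f⁻¹ : Inn G) : MulAut G) g * g⁻¹ ∈ U}

/-- `t` is the topology induced on the group of inner automorphisms by the Birkhoff topology:
the group topology with the sets `birk G C U`, `C` compact and `U` a neighbourhood of the identity,
as a neighbourhood base at the identity. -/
structure IsBirkhoff (G : Type u) [Group G] [TopologicalSpace G] (t : TopologicalSpace (Inn G)) :
    Prop where
  isTopologicalGroup : @IsTopologicalGroup (Inn G) t _
  hasBasis : (@nhds (Inn G) t 1).HasBasis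
    (fun p : Set G × Set G => IsCompact p.1 ∧ p.2 ∈ 𝓝 (1 : G)) (fun p => birk G p.1 p.2)

theorem secondCountable {G : Type u} [Group G] [TopologicalSpace G] [IsTopologicalGroup G]
    [T2Space G] [LocallyCompactSpace G] [SecondCountableTopology G]
    (t : TopologicalSpace (Inn G)) (hB : IsBirkhoff G t) : SecondCountableTopology (Inn G) := by
  haveI := hB.isTopologicalGroup
  -- first countability
  let CE : CompactExhaustion G := CompactExhaustion.choice G
  obtain ⟨O, hO⟩ := (𝓝 (1 : G)).exists_antitone_basis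
  have hb : (𝓝 (1 : Inn G)).HasBasis (fun _ : ℕ => True) (fun n => birk G (CE n) (O n)) := by
    refine ⟨fun A => ⟨fun hA => ?_, ?_⟩⟩
    · obtain ⟨⟨C, U⟩, ⟨hC, hU⟩, hCU⟩ := hB.hasBasis.mem_iff.1 hA
      obtain ⟨n, hn⟩ := CE.exists_superset_of_isCompact hC
      obtain ⟨m, -, hm⟩ := hO.1.mem_iff.1 hU
      refine ⟨max n m, trivial, Subset.trans ?_ hCU⟩
      intro f hf g hg
      have h1 := hf g (CE.subset (le_max_left _ _) (hn hg))
      have h2 : O (max n m) ⊆ U := (hO.2 (le_max_right _ _)).trans hm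
      exact ⟨h2 h1.1, h2 h1.2⟩
    · rintro ⟨n, -, hn⟩
      exact mem_of_superset (hB.hasBasis.mem_of_mem (i := (CE n, O n))
        ⟨CE.isCompact n, hO.1.mem_of_mem trivial⟩) hn
  haveI hcg : (𝓝 (1 : Inn G)).IsCountablyGenerated :=
    (⟨hb, Set.to_countable _⟩ : HasCountableBasis _ _ _).isCountablyGenerated
  -- continuity of `G → Inn G`
  let φ : G →* Inn G := (MulAut.conj (G := G)).rangeRestrict
  have hφ1 : ∀ x g : G, ((φ x : Inn G) : MulAut G) g = x * g * x⁻¹ := fun x g => rfl
  have hφ2 : ∀ x g : G, (((φ x)⁻¹ : Inn G) : MulAut G) g = x⁻¹ * g * x := by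
    intro x g
    rw [← map_inv, hφ1, inv_inv]
  have hcont : Continuous φ := by
    refine continuous_of_continuousAt_one φ ?_
    rw [ContinuousAt, map_one, hB.hasBasis.tendsto_right_iff]
    rintro ⟨C, U⟩ ⟨hC, hU⟩
    have e1 : ∀ᶠ x in 𝓝 (1 : G), ∀ g ∈ C, x * g * x⁻¹ * g⁻¹ ∈ U := by
      refine hC.eventually_forall_of_forall_eventually (P := fun x g => x * g * x⁻¹ * g⁻¹ ∈ U) ?_
      intro g _
      have hc : ContinuousAt (fun p : G × G => p.1 * p.2 * p.1⁻¹ * p.2⁻¹) (1, g) := by fun_prop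
      apply hc.preimage_mem_nhds
      simpa using hU
    have e2 : ∀ᶠ x in 𝓝 (1 : G), ∀ g ∈ C, x⁻¹ * g * x * g⁻¹ ∈ U := by
      refine hC.eventually_forall_of_forall_eventually (P := fun x g => x⁻¹ * g * x * g⁻¹ ∈ U) ?_
      intro g _
      have hc : ContinuousAt (fun p : G × G => p.1⁻¹ * p.2 * p.1 * p.2⁻¹) (1, g) := by fun_prop
      apply hc.preimage_mem_nhds
      simpa using hU
    filter_upwards [e1, e2] with x a1 a2 g hg
    rw [hφ1, hφ2]
    exact ⟨a1 g hg, a2 g hg⟩
  have hsurj : Function.Surjective φ := MonoidHom.rangeRestrict_surjective _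
  haveI : TopologicalSpace.SeparableSpace (Inn G) := hsurj.denseRange.separableSpace hcont
  letI : UniformSpace (Inn G) := IsTopologicalGroup.rightUniformSpace (Inn G)
  haveI : (uniformity (Inn G)).IsCountablyGenerated := comap.isCountablyGenerated _ _
  exact UniformSpace.secondCountable_of_separable _

/-- The Birkhoff topology exists (so that `IsBirkhoff` is not vacuous). -/
theorem exists_birkhoff {G : Type u} [Group G] [TopologicalSpace G] [IsTopologicalGroup G]
    [LocallyCompactSpace G] : ∃ t : TopologicalSpace (Inn G), IsBirkhoff G t := by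
  obtain ⟨K, hK1, -, hKc⟩ := local_compact_nhds (univ_mem : (univ : Set G) ∈ 𝓝 (1 : G))
  let B : GroupFilterBasis (Inn G) :=
    { sets := {A | ∃ C U : Set G, IsCompact C ∧ U ∈ 𝓝 (1 : G) ∧ A = birk G C U}
      nonempty := ⟨birk G ∅ univ, ∅, univ, isCompact_empty, univ_mem, rfl⟩
      inter_sets := by
        rintro _ _ ⟨C, U, hC, hU, rfl⟩ ⟨C', U', hC', hU', rfl⟩
        refine ⟨birk G (C ∪ C') (U ∩ U'), ⟨_, _, hC.union hC', inter_mem hU hU', rfl⟩, ?_⟩
        intro f hf
        exact ⟨fun g hg => ⟨(hf g (Or.inl hg)).1.1, (hf g (Or.inl hg)).2.1⟩,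
          fun g hg => ⟨(hf g (Or.inr hg)).1.2, (hf g (Or.inr hg)).2.2⟩⟩
      one' := by
        rintro _ ⟨C, U, hC, hU, rfl⟩ g hg
        simpa using mem_of_mem_nhds hU
      mul' := by
        rintro _ ⟨C, U, hC, hU, rfl⟩
        obtain ⟨O, hOo, hO1, hOm⟩ := exists_open_nhds_one_mul_subset hU
        refine ⟨birk G (C ∪ K * C) (O ∩ K), ⟨_, _, hC.union (hKc.mul hC),
          inter_mem (hOo.mem_nhds hO1) hK1, rfl⟩, ?_⟩
        rintro _ ⟨f, hf, h, hh, rfl⟩ g hg
        have key : ∀ a b : Inn G, (∀ g ∈ C ∪ K * C, ((a : MulAut G) g * g⁻¹ ∈ O ∩ K)) →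
            (∀ g ∈ C ∪ K * C, ((b : MulAut G) g * g⁻¹ ∈ O ∩ K)) →
            ((a * b : Inn G) : MulAut G) g * g⁻¹ ∈ U := by
          intro a b ha hb
          have h1 := hb g (Or.inl hg)
          have h2 : (b : MulAut G) g ∈ K * C := ⟨_, h1.2, g, hg, by simp⟩
          have h3 := ha _ (Or.inr h2)
          have h4 : ((a * b : Inn G) : MulAut G) g * g⁻¹ =
              ((a : MulAut G) ((b : MulAut G) g) * ((b : MulAut G) g)⁻¹) *
                ((b : MulAut G) g * g⁻¹) := by
            show (a : MulAut G) ((b : MulAut G) g) * g⁻¹ = _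
            simp [mul_assoc]
          rw [h4]
          exact hOm (mul_mem_mul h3.1 h1.1)
        constructor
        · exact key f h (fun g hg => (hf g hg).1) (fun g hg => (hh g hg).1)
        · show (((f * h)⁻¹ : Inn G) : MulAut G) g * g⁻¹ ∈ U
          rw [mul_inv_rev]
          exact key h⁻¹ f⁻¹ (fun g hg => (hh g hg).2) (fun g hg => (hf g hg).2)
      inv' := by
        rintro _ ⟨C, U, hC, hU, rfl⟩
        refine ⟨birk G C U, ⟨_, _, hC, hU, rfl⟩, ?_⟩
        intro f hf g hg
        refine ⟨(hf g hg).2, ?_⟩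
        rw [inv_inv]
        exact (hf g hg).1
      conj' := by
        rintro α _ ⟨C, U, hC, hU, rfl⟩
        obtain ⟨_, a, rfl⟩ := α
        have hU' : (fun u : G => a * u * a⁻¹) ⁻¹' U ∈ 𝓝 (1 : G) := by
          have hc : ContinuousAt (fun u : G => a * u * a⁻¹) 1 := by fun_prop
          apply hc.preimage_mem_nhds
          simpa using hU
        refine ⟨birk G ((fun g : G => a⁻¹ * g * a) '' C) ((fun u : G => a * u * a⁻¹) ⁻¹' U),
          ⟨_, _, hC.image (by fun_prop), hU', rfl⟩, ?_⟩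
        intro f hf g hg
        have h1 := hf _ ⟨g, hg, rfl⟩
        have key : ∀ b : Inn G, a * ((b : MulAut G) (a⁻¹ * g * a) * (a⁻¹ * g * a)⁻¹) * a⁻¹ ∈ U →
            (a * (b : MulAut G) (a⁻¹ * g * a) * a⁻¹) * g⁻¹ ∈ U := by
          intro b hb
          have : a * ((b : MulAut G) (a⁻¹ * g * a) * (a⁻¹ * g * a)⁻¹) * a⁻¹ =
              (a * (b : MulAut G) (a⁻¹ * g * a) * a⁻¹) * g⁻¹ := by group
          rwa [this] at hb
        have e1 := key f h1.1
        have e2 := key f⁻¹ h1.2
        constructor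
        · have : (((⟨MulAut.conj a, a, rfl⟩ : Inn G) * f * (⟨MulAut.conj a, a, rfl⟩ : Inn G)⁻¹ : Inn G) :
              MulAut G) g = a * (f : MulAut G) (a⁻¹ * g * a) * a⁻¹ := by
            have h2 : ((MulAut.conj a)⁻¹ : MulAut G) g = a⁻¹ * g * a := by
              rw [← map_inv]; simp
            show MulAut.conj a ((f : MulAut G) (((MulAut.conj a)⁻¹ : MulAut G) g)) = _
            rw [h2]; simp
          show (((⟨MulAut.conj a, a, rfl⟩ : Inn G) * f * (⟨MulAut.conj a, a, rfl⟩ : Inn G)⁻¹ : Inn G) :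
              MulAut G) g * g⁻¹ ∈ U
          rw [this]; exact e1
        · have : ((((⟨MulAut.conj a, a, rfl⟩ : Inn G) * f * (⟨MulAut.conj a, a, rfl⟩ : Inn G)⁻¹)⁻¹ : Inn G) :
              MulAut G) g = a * ((f⁻¹ : Inn G) : MulAut G) (a⁻¹ * g * a) * a⁻¹ := by
            have h2 : ((MulAut.conj a)⁻¹ : MulAut G) g = a⁻¹ * g * a := by
              rw [← map_inv]; simp
            rw [mul_inv_rev, mul_inv_rev, inv_inv, ← mul_assoc]
            show MulAut.conj a (((f⁻¹ : Inn G) : MulAut G) (((MulAut.conj a)⁻¹ : MulAut G) g)) = _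
            rw [h2]; simp
          show ((((⟨MulAut.conj a, a, rfl⟩ : Inn G) * f * (⟨MulAut.conj a, a, rfl⟩ : Inn G)⁻¹)⁻¹ : Inn G) :
              MulAut G) g * g⁻¹ ∈ U
          rw [this]; exact e2 }
  refine ⟨B.topology, B.isTopologicalGroup, ?_⟩
  refine ⟨fun A => ?_⟩
  rw [(B.nhds_one_hasBasis).mem_iff]
  constructor
  · rintro ⟨E, ⟨C, U, hC, hU, rfl⟩, hEA⟩
    exact ⟨(C, U), ⟨hC, hU⟩, hEA⟩
  · rintro ⟨⟨C, U⟩, ⟨hC, hU⟩, hEA⟩
    exact ⟨birk G C U, ⟨C, U, hC, hU, rfl⟩, hEA⟩

/-- If `G` is locally compact, `(Inn(G), τB)` is locally compact and minimal, and `G` or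
`(Inn(G), τB)` is second countable, then all powers of `(Inn(G), τB)` are minimal. -/
theorem result {G : Type u} [Group G] [TopologicalSpace G] [IsTopologicalGroup G]
    [T2Space G] [LocallyCompactSpace G]
    (τB : TopologicalSpace (Inn G)) (hB : IsBirkhoff G τB)
    (hlc : LocallyCompactSpace (Inn G)) (hmin : IsMinimal (Inn G) τB)
    (hsc : SecondCountableTopology G ∨ SecondCountableTopology (Inn G)) (κ : Type v) :
    IsMinimal (κ → Inn G) Pi.topologicalSpace := by
  have h : SecondCountableTopology (Inn G) := by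
    rcases hsc with h | h
    · exact secondCountable τB hB
    · exact h
  exact Pool.Agent.Results.MP_c4a55f_al.LocCompactProduct.result (fun _ : κ => Inn G)
    (fun _ => hmin) (fun _ => Or.inl ⟨hlc, h⟩)

end Pool.Agent.Results.MP_eb0bda_gt.BirkhoffPowers
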